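import Pool.Agent.Lib.MP_e81270_lc_Space.Defs

/-!
# MP_e81270_lc: Extended Frege refutations, depth and length, definitions

Formulas, clauses and CNFs are those of `Pool.Agent.Lib.MP_e81270_lc_Space.Defs`. The variables
`0, …, n - 1` are those of the CNF; `n, n + 1, …` are the extension variables.
-/

namespace Pool.Agent.MP_e81270_lc.Depth

open Pool.Agent.MP_e81270_lc.Space

/-- The assignment `v` respects the extension definitions: the value of every extension variable
`n + i` is the value of the formula `D i` which it abbreviates. -/
def Respects (n : ℕ) (D : ℕ → Fml) (v : ℕ → Bool) : Prop := ∀ i, v (n + i) = (D i).eval v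

/-- The formula `A` together with the definitions of all extension variables on which it depends,
directly or indirectly, has at most `s` symbols: the indices of these extension variables lie in
a set `U` which is closed under dependence. -/
def CircuitSizeLe (n : ℕ) (D : ℕ → Fml) (A : Fml) (s : ℕ) : Prop :=
  ∃ U : Finset ℕ, (∀ i, n + i ∈ A.vars → i ∈ U) ∧
    (∀ i ∈ U, ∀ j, n + j ∈ (D i).vars → j ∈ U) ∧ A.size + ∑ i ∈ U, (D i).size ≤ s

/-- `A 0, …, A (L - 1)` are the lines of an Extended Frege refutation (with semantic inferences)
of the CNF `F`: the extension variable `n + i` abbreviates `D i`, which may contain only earlier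
extension variables; every line has circuit size at most `s`; every line follows, for the
assignments which respect the definitions, from at most two earlier lines and at most `s` clauses
of `F`; the height `h` increases from premises to conclusions, and some contradictory line has
height at most `d`. -/
structure IsRefutation {n w m : ℕ} (F : Fin m → Clause n w) (s L d : ℕ) (D : ℕ → Fml)
    (A : Fin L → Fml) (h : Fin L → ℕ) : Prop where
  acyclic : ∀ i j, n + j ∈ (D i).vars → j < i
  size_le : ∀ t, CircuitSizeLe n D (A t) s
  step : ∀ t, ∃ (P : Finset (Fin L)) (S : Finset (Fin m)), P.card ≤ 2 ∧ S.card ≤ s ∧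
    (∀ i ∈ P, i < t ∧ h i < h t) ∧
    ∀ v, Respects n D v → (∀ i ∈ P, (A i).eval v = true) → (∀ i ∈ S, Holds v (F i)) →
      (A t).eval v = true
  final : ∃ t, h t ≤ d ∧ ∀ v, Respects n D v → (A t).eval v = false

end Pool.Agent.MP_e81270_lc.Depth
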