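import Pool.Agent.Lib.MP_e81270_lc_Depth.Defs
import Pool.Agent.Lib.MP_e81270_lc_Space.Enum

/-!
# The sets of inputs at which the lines of an Extended Frege refutation are false
-/

namespace Pool.Agent.MP_e81270_lc.Depth

open Finset Pool.Agent.MP_e81270_lc.Space

/-- the assignment which extends the input `x` and respects the definitions `D` -/
def extv (n : ℕ) (D : ℕ → Fml) (x : Fin n → Bool) (k : ℕ) : Bool :=
  if h : k < n then x ⟨k, h⟩
  else (D (k - n)).eval fun j => if _hj : j < k then extv n D x j else false
termination_by k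

theorem extv_of_lt {n : ℕ} (D : ℕ → Fml) (x : Fin n → Bool) {k : ℕ} (h : k < n) :
    extv n D x k = x ⟨k, h⟩ := by
  rw [extv, dif_pos h]

theorem extv_val {n : ℕ} (D : ℕ → Fml) (x : Fin n → Bool) (i : Fin n) :
    extv n D x i = x i := extv_of_lt D x i.2

theorem extv_respects {n : ℕ} {D : ℕ → Fml} (hD : ∀ i j, n + j ∈ (D i).vars → j < i)
    (x : Fin n → Bool) : Respects n D (extv n D x) := by
  intro i
  rw [extv, dif_neg (by omega), Nat.add_sub_cancel_left]
  apply Fml.eval_congr
  intro j hj
  by_cases h : j < n
  · rw [dif_pos (by omega)]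
  · have h1 : j = n + (j - n) := by omega
    have h2 := hD i (j - n) (by rwa [← h1])
    rw [dif_pos (by omega)]

/-- two assignments with the same input and satisfying the definitions of a closed set of
extension variables agree on it -/
theorem unique_on {n : ℕ} {D : ℕ → Fml} (hD : ∀ i j, n + j ∈ (D i).vars → j < i)
    {U : Finset ℕ} (hU : ∀ i ∈ U, ∀ j, n + j ∈ (D i).vars → j ∈ U) {v v' : ℕ → Bool}
    (hvv : ∀ i < n, v i = v' i) (hv : ∀ i ∈ U, v (n + i) = (D i).eval v)
    (hv' : ∀ i ∈ U, v' (n + i) = (D i).eval v') : ∀ i ∈ U, v (n + i) = v' (n + i) := by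
  intro i
  induction i using Nat.strong_induction_on with
  | _ i ih =>
    intro hi
    rw [hv i hi, hv' i hi]
    apply Fml.eval_congr
    intro j hj
    by_cases h : j < n
    · exact hvv j h
    · have h1 : j = n + (j - n) := by omega
      rw [h1] at hj ⊢
      exact ih _ (hD i _ hj) (hU i hi _ hj)

/-- the inputs at which the formula `A`, unfolded by the definitions `D`, is false -/
noncomputable def zeroSet (n : ℕ) (D : ℕ → Fml) (A : Fml) : Finset (Fin n → Bool) :=
  univ.filter fun x => A.eval (extv n D x) = false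

theorem mem_zeroSet {n : ℕ} {D : ℕ → Fml} {A : Fml} {x : Fin n → Bool} :
    x ∈ zeroSet n D A ↔ A.eval (extv n D x) = false := by
  simp [zeroSet]

theorem eval_iff (v : ℕ → Bool) (A B : Fml) :
    (Fml.iff A B).eval v = true ↔ A.eval v = B.eval v := by
  simp only [Fml.iff, Fml.eval]
  cases A.eval v <;> cases B.eval v <;> simp

theorem size_iff (A B : Fml) : (Fml.iff A B).size = 2 * (A.size + B.size) + 5 := by
  simp only [Fml.iff, Fml.size]
  ring

theorem space_map_iff (n : ℕ) (D : ℕ → Fml) (l : List ℕ) :
    space (l.map fun i => Fml.iff (Fml.var (n + i)) (D i)) ≤ 9 * (l.map fun i => (D i).size).sum := by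
  induction l with
  | nil => simp [space]
  | cons i l ih =>
    rw [List.map_cons, List.map_cons, space_cons, List.sum_cons, size_iff]
    have h := (D i).size_pos
    have h1 : (Fml.var (n + i)).size = 1 := rfl
    rw [h1]
    omega

/-- the zero set of a formula of circuit size `s` is given by a memory of `9 s` symbols -/
theorem zeroSet_mem_family {n s : ℕ} {D : ℕ → Fml} (hD : ∀ i j, n + j ∈ (D i).vars → j < i)
    {A : Fml} (hA : CircuitSizeLe n D A s) : zeroSet n D A ∈ family n (9 * s) := by
  classical
  obtain ⟨U, h1, h2, h3⟩ := hA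
  have hz : zeroSet n D A = memSet n
      (Fml.neg A :: U.toList.map fun i => Fml.iff (Fml.var (n + i)) (D i)) := by
    ext x
    rw [mem_zeroSet, mem_memSet]
    constructor
    · intro hx
      refine ⟨extv n D x, extv_val D x, ?_⟩
      intro B hB
      rcases List.mem_cons.1 hB with rfl | hB
      · simp [Fml.eval, hx]
      · obtain ⟨i, -, rfl⟩ := List.mem_map.1 hB
        rw [eval_iff]
        exact extv_respects hD x i
    · rintro ⟨v, hvx, hv⟩
      have hA : A.eval v = false := by
        have := hv (Fml.neg A) (List.mem_cons_self ..)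
        simpa [Fml.eval] using this
      have hUv : ∀ i ∈ U, v (n + i) = (D i).eval v := by
        intro i hi
        have := hv (Fml.iff (Fml.var (n + i)) (D i))
          (List.mem_cons_of_mem _ (List.mem_map.2 ⟨i, mem_toList.2 hi, rfl⟩))
        rw [eval_iff] at this
        exact this
      have hlt : ∀ i < n, v i = extv n D x i := by
        intro i hi
        rw [extv_of_lt D x hi]
        exact hvx ⟨i, hi⟩
      have hu := unique_on hD h2 hlt hUv fun i _ => extv_respects hD x i
      rw [← hA]
      symm
      apply Fml.eval_congr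
      intro j hj
      by_cases h : j < n
      · exact hlt j h
      · have hj1 : j = n + (j - n) := by omega
        rw [hj1] at hj ⊢
        exact hu _ (h1 _ hj)
  rw [hz]
  apply memSet_mem_family
  rw [space_cons]
  have h4 := space_map_iff n D U.toList
  have h5 : (U.toList.map fun i => (D i).size).sum = ∑ i ∈ U, (D i).size := by
    rw [Finset.sum_map_toList]
  rw [h5] at h4
  have h6 := A.size_pos
  have h7 : (Fml.neg A).size = A.size + 1 := rfl
  omega

/-- what the front end gives for a refutation -/
theorem zeroSet_of_refutation {n w m : ℕ} {F : Fin m → Clause n w} {s L d : ℕ} {D : ℕ → Fml}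
    {A : Fin L → Fml} {h : Fin L → ℕ} (hR : IsRefutation F s L d D A h) :
    (∀ t, zeroSet n D (A t) ∈ family n (9 * s)) ∧
    (∀ t, ∃ (P : Finset (Fin L)) (S : Finset (Fin m)), P.card ≤ 2 ∧ S.card ≤ s ∧
      (∀ i ∈ P, i < t ∧ h i < h t) ∧
      ∀ x ∈ zeroSet n D (A t), (∃ i ∈ P, x ∈ zeroSet n D (A i)) ∨ ∃ i ∈ S, Fals (F i) x) ∧
    ∃ t, h t ≤ d ∧ zeroSet n D (A t) = univ := by
  refine ⟨fun t => zeroSet_mem_family hR.acyclic (hR.size_le t), fun t => ?_, ?_⟩
  · obtain ⟨P, S, hP, hS, hPt, hstep⟩ := hR.step t
    refine ⟨P, S, hP, hS, hPt, ?_⟩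
    intro x hx
    rw [mem_zeroSet] at hx
    by_contra hcon
    push Not at hcon
    obtain ⟨hc1, hc2⟩ := hcon
    have := hstep (extv n D x) (extv_respects hR.acyclic x) ?_ ?_
    · rw [hx] at this
      exact absurd this (by simp)
    · intro i hi
      have := hc1 i hi
      rw [mem_zeroSet] at this
      simpa using this
    · intro i hi
      rw [holds_iff]
      have he : (fun j : Fin n => extv n D x j) = x := funext (extv_val D x)
      rw [he]
      exact hc2 i hi
  · obtain ⟨t, ht, hf⟩ := hR.final
    refine ⟨t, ht, ?_⟩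
    ext x
    rw [mem_zeroSet]
    simp only [mem_univ, iff_true]
    exact hf _ (extv_respects hR.acyclic x)

end Pool.Agent.MP_e81270_lc.Depth
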